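import Pool.Agent.H.MP_b2231e_al.Main

set_option autoImplicit false

namespace Pool.Agent.Results.MP_d93556_al.FinCentralDerived

theorem result (G : Type) [Group G] (hFC : ∀ g : G, {h : G | IsConj g h}.Finite)
    (hT : Finite ↥(Subgroup.center G ⊓ commutator G)) :
    ∃ (ι : Type) (F : ι → Type) (_ : ∀ i, Group (F i)) (_ : ∀ i, Finite (F i))
      (f : (G ⧸ Subgroup.center G) →* ((i : ι) → F i)),
      Function.Injective f ∧ ∀ x, {i : ι | f x i ≠ 1}.Finite :=
  (Pool.Agent.H.MP_b2231e_al.thmA hFC (Set.finite_coe_iff.1 hT)).emb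

end Pool.Agent.Results.MP_d93556_al.FinCentralDerived
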